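import Pool.Agent.Q154.EL.CH1a
import Pool.Agent.W401.Cheb.Main

/-!
# EL-CH1: many primes with a root and congruent to one
-/

set_option autoImplicit false

namespace Pool.Agent.Q154.EL

open Pool.Agent.Q51.EL

theorem ch1 : S_CH1 := ch1_of Pool.Agent.W401.Cheb.chebotarev W54.ChTor.main

end Pool.Agent.Q154.EL
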