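import Pool.Agent.Q154.EL.Spl

/-!
# EL-CH1: many primes with a root and congruent to one
-/

set_option autoImplicit false

namespace Pool.Agent.Q154.EL

open NumberField IsDedekindDomain Finset Polynomial
open Pool.Agent.Q51.EL
open Pool.Agent.W401.Cheb (TaskTor HasFrob Chebotarev xp)

/-- an element of the algebraic closure which is its own `p`-th power -/
theorem mem_range_of_pow {p : ℕ} [Fact p.Prime] {x : AlgebraicClosure (ZMod p)} (h : x ^ p = x) :
    ∃ r : ZMod p, algebraMap (ZMod p) (AlgebraicClosure (ZMod p)) r = x := by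
  haveI : CharP (AlgebraicClosure (ZMod p)) p :=
    charP_of_injective_algebraMap (algebraMap (ZMod p) (AlgebraicClosure (ZMod p))).injective p
  have h1 := (Subfield.mem_bot_iff_pow_eq_self (AlgebraicClosure (ZMod p)) p).2 h
  rw [← ZMod.fieldRange_castHom_eq_bot p] at h1
  obtain ⟨r, hr⟩ := h1
  refine ⟨r, ?_⟩
  rw [← hr]
  congr 1
  exact Subsingleton.elim _ _

section good

variable {M : Type} [Field M] [NumberField M] [IsGalois ℚ M] {p : ℕ} [Fact p.Prime]

theorem mod_one {W : ℕ} (hW : 0 < W) {ζ : M} (hζ : IsPrimitiveRoot ζ W) (hpW : ¬ p ∣ W)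
    (φ : 𝓞 M →+* AlgebraicClosure (ZMod p)) (hφ : ∀ x, φ x = φ x ^ p) : p % W = 1 % W := by
  have hp : p.Prime := Fact.out
  haveI : CharP (AlgebraicClosure (ZMod p)) p :=
    charP_of_injective_algebraMap (algebraMap (ZMod p) (AlgebraicClosure (ZMod p))).injective p
  have hi : IsIntegral ℤ ζ := hζ.isIntegral hW
  let z : 𝓞 M := ⟨ζ, hi⟩
  have hz : IsPrimitiveRoot z W := by
    refine IsPrimitiveRoot.of_map_of_injective (f := algebraMap (𝓞 M) M) ?_
      RingOfIntegers.coe_injective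
    exact hζ
  have h1 := (hz.isRoot_cyclotomic hW).map (f := φ)
  rw [map_cyclotomic] at h1
  haveI : NeZero ((W : ℕ) : AlgebraicClosure (ZMod p)) := by
    refine ⟨fun h => hpW ?_⟩
    exact (CharP.cast_eq_zero_iff (AlgebraicClosure (ZMod p)) p W).1 h
  have h2 : IsPrimitiveRoot (φ z) W := isRoot_cyclotomic_iff.1 h1
  have h3 : φ z ≠ 0 := h2.ne_zero hW.ne'
  have h4 : φ z ^ (p - 1) = 1 := by
    have h5 : φ z ^ (p - 1) * φ z = 1 * φ z := by
      rw [← pow_succ, Nat.sub_add_cancel hp.one_le, one_mul]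
      exact (hφ z).symm
    exact mul_right_cancel₀ h3 h5
  have h5 := h2.dvd_of_pow_eq_one _ h4
  exact ((Nat.modEq_iff_dvd' hp.one_le).2 h5).symm

theorem has_root {f : ℤ[X]} {θ : M} (hθ : aeval θ f = 0) (hpa : ¬ (p : ℤ) ∣ f.leadingCoeff)
    (φ : 𝓞 M →+* AlgebraicClosure (ZMod p)) (hφ : ∀ x, φ x = φ x ^ p) :
    ∃ r : ℤ, (p : ℤ) ∣ f.eval r := by
  have hi : IsIntegral ℤ (f.leadingCoeff • θ) := isIntegral_leadingCoeff_smul f θ hθ
  let t : 𝓞 M := ⟨f.leadingCoeff • θ, hi⟩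
  have ht : (t : M) = f.leadingCoeff * θ := by
    show f.leadingCoeff • θ = _
    rw [zsmul_eq_mul]
  have h1 : eval₂ (Int.castRingHom (𝓞 M)) t (scaleRoots f f.leadingCoeff) = 0 := by
    apply RingOfIntegers.coe_injective (K := M)
    show algebraMap (𝓞 M) M _ = algebraMap (𝓞 M) M 0
    rw [hom_eval₂, map_zero]
    have h2 : (algebraMap (𝓞 M) M).comp (Int.castRingHom (𝓞 M)) = Int.castRingHom M :=
      RingHom.ext_int _ _
    rw [h2]
    show eval₂ (Int.castRingHom M) (t : M) _ = 0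
    rw [ht]
    have h3 := scaleRoots_eval₂_mul (p := f) (Int.castRingHom M) θ f.leadingCoeff
    rw [show (Int.castRingHom M) f.leadingCoeff = (f.leadingCoeff : M) from rfl] at h3
    rw [h3]
    have h4 : eval₂ (Int.castRingHom M) θ f = 0 := by
      rw [aeval_def] at hθ
      rw [← hθ]
      congr 1
    rw [h4, mul_zero]
  obtain ⟨r0, hr0⟩ := mem_range_of_pow (hφ t).symm
  have h2 : eval₂ (Int.castRingHom (ZMod p)) r0 (scaleRoots f f.leadingCoeff) = 0 := by
    apply (algebraMap (ZMod p) (AlgebraicClosure (ZMod p))).injective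
    rw [map_zero, hom_eval₂, hr0, ← map_zero φ, ← h1, hom_eval₂]
    congr 1
    exact RingHom.ext_int _ _
  have ha : ((f.leadingCoeff : ℤ) : ZMod p) ≠ 0 := fun h =>
    hpa ((ZMod.intCast_zmod_eq_zero_iff_dvd _ p).1 h)
  have h3 := scaleRoots_eval₂_mul (p := f) (Int.castRingHom (ZMod p))
    (((f.leadingCoeff : ℤ) : ZMod p)⁻¹ * r0) f.leadingCoeff
  rw [show (Int.castRingHom (ZMod p)) f.leadingCoeff = ((f.leadingCoeff : ℤ) : ZMod p) from rfl,
    mul_inv_cancel_left₀ ha, h2] at h3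
  have h4 := (mul_eq_zero.1 h3.symm).resolve_left (pow_ne_zero _ ha)
  obtain ⟨r, hr⟩ := ZMod.intCast_surjective (((f.leadingCoeff : ℤ) : ZMod p)⁻¹ * r0)
  refine ⟨r, ?_⟩
  rw [← ZMod.intCast_zmod_eq_zero_iff_dvd, ← h4, ← hr]
  have h5 := hom_eval₂ f (RingHom.id ℤ) (Int.castRingHom (ZMod p)) r
  rw [RingHom.comp_id] at h5
  exact h5

end good

theorem xp_ne_zero {M : Type} [Field M] [NumberField M] [IsGalois ℚ M] {p : ℕ} (h : xp M 1 p ≠ 0) :
    ∃ _ : Fact p.Prime, ∃ φ : 𝓞 M →+* AlgebraicClosure (ZMod p), ∀ x, φ x = φ x ^ p := by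
  unfold xp at h
  split_ifs at h with hp
  · haveI : Fact p.Prime := ⟨hp⟩
    obtain ⟨⟨φ, hφ⟩⟩ := (Nat.card_ne_zero.1 h).1
    refine ⟨⟨hp⟩, φ, fun x => ?_⟩
    have h1 := hφ x
    rwa [one_smul] at h1
  · exact absurd rfl h

theorem pi_lower : ∃ Y0 : ℝ, 3 ≤ Y0 ∧ ∀ Y : ℝ, Y0 ≤ Y →
    Y / (2 * Real.log Y) ≤ (Nat.primeCounting ⌊Y⌋₊ : ℝ) := by
  refine ⟨1000, by norm_num, fun Y hY => ?_⟩
  have h1 := Chebyshev.pi_ge' (x := Y) (by linarith)
  refine le_trans ?_ h1
  have hlog : 0 < Real.log Y := Real.log_pos (by linarith)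
  rw [div_le_div_iff₀ (by positivity) hlog]
  have h2 : Y / 2 ≤ (Y - 1) * Real.log 2 - Real.log (Y + 2) := by
    have h3 : (0.6931 : ℝ) < Real.log 2 := by
      have := Real.log_two_gt_d9
      linarith
    have h4 : Real.log (Y + 2) ≤ (Y + 2) / 16 + 3 := by
      have h5 : Real.log ((Y + 2) / 16) ≤ (Y + 2) / 16 - 1 := by
        have := Real.log_le_sub_one_of_pos (x := (Y + 2) / 16) (by linarith)
        exact this
      rw [Real.log_div (by linarith) (by norm_num)] at h5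
      have h6 : Real.log 16 ≤ 4 := by
        rw [show (16 : ℝ) = 2 ^ 4 by norm_num, Real.log_pow]
        have := Real.log_two_lt_d9
        push_cast
        linarith
      linarith
    nlinarith
  nlinarith

theorem ch1_of (hC : Chebotarev) (hTor : TaskTor) : S_CH1 := by
  classical
  intro f hf W hW
  obtain ⟨F, hF⟩ : ∃ F : ℚ[X], F = f.map (Int.castRingHom ℚ) := ⟨_, rfl⟩
  obtain ⟨P, hP⟩ : ∃ P : ℚ[X], P = F * cyclotomic W ℚ := ⟨_, rfl⟩
  have hF0 : F ≠ 0 := by
    rw [hF]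
    exact hf.ne_zero
  have hP0 : P ≠ 0 := by
    rw [hP]
    exact mul_ne_zero hF0 (cyclotomic_ne_zero W ℚ)
  have hS : IsSplittingField ℚ P.SplittingField P := IsSplittingField.splittingField P
  have h1 : FiniteDimensional ℚ P.SplittingField := IsSplittingField.finiteDimensional _ P
  have h2 : CharZero P.SplittingField :=
    charZero_of_injective_algebraMap (algebraMap ℚ P.SplittingField).injective
  have hnf : NumberField P.SplittingField := ⟨⟩
  have hN : Normal ℚ P.SplittingField := Normal.of_isSplittingField P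
  have hG : IsGalois ℚ P.SplittingField := ⟨⟩
  obtain ⟨M, hM⟩ : ∃ M : Type, M = P.SplittingField := ⟨_, rfl⟩
  have hsp : (P.map (algebraMap ℚ P.SplittingField)).Splits := SplittingField.splits P
  have hPm0 : P.map (algebraMap ℚ P.SplittingField) ≠ 0 :=
    (Polynomial.map_ne_zero_iff (algebraMap ℚ P.SplittingField).injective).2 hP0
  have hFP : F ∣ P := by
    rw [hP]
    exact Dvd.intro _ rfl
  have hcP : cyclotomic W ℚ ∣ P := by
    rw [hP]
    exact Dvd.intro_left _ rfl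
  -- a root of `f`
  obtain ⟨θ, hθ⟩ : ∃ θ : P.SplittingField, aeval θ f = 0 := by
    have h3 : (F.map (algebraMap ℚ P.SplittingField)).Splits := by
      exact Splits.of_dvd hsp hPm0 (Polynomial.map_dvd _ hFP)
    have h4 : (F.map (algebraMap ℚ P.SplittingField)).degree ≠ 0 := by
      rw [degree_map, hF]
      exact (degree_pos_of_irreducible hf).ne'
    obtain ⟨α, hα⟩ := h3.exists_eval_eq_zero h4
    refine ⟨α, ?_⟩
    rw [eval_map_algebraMap, hF] at hα
    rw [← hα]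
    exact (aeval_map_algebraMap ℚ α f).symm
  -- a root of unity
  obtain ⟨ζ, hζ⟩ : ∃ ζ : P.SplittingField, IsPrimitiveRoot ζ W := by
    have h3 : ((cyclotomic W ℚ).map (algebraMap ℚ P.SplittingField)).Splits := by
      exact Splits.of_dvd hsp hPm0 (Polynomial.map_dvd _ hcP)
    have h4 : ((cyclotomic W ℚ).map (algebraMap ℚ P.SplittingField)).degree ≠ 0 := by
      rw [degree_map, degree_cyclotomic]
      have := Nat.totient_pos.2 (Nat.pos_of_ne_zero hW)
      exact_mod_cast this.ne'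
    obtain ⟨α, hα⟩ := h3.exists_eval_eq_zero h4
    haveI : NeZero ((W : ℕ) : P.SplittingField) := ⟨by exact_mod_cast hW⟩
    rw [map_cyclotomic] at hα
    exact ⟨α, isRoot_cyclotomic_iff.1 hα⟩
  obtain ⟨D, hD0, hD⟩ := hTor P.SplittingField
  obtain ⟨E, hE⟩ : ∃ E : ℕ, E = D * W * f.leadingCoeff.natAbs := ⟨_, rfl⟩
  have hlc : f.leadingCoeff ≠ 0 := by
    rw [Ne, leadingCoeff_eq_zero]
    rintro rfl
    rw [hF, Polynomial.map_zero] at hF0
    exact hF0 rfl
  have hE0 : E ≠ 0 := by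
    rw [hE]
    exact mul_ne_zero (mul_ne_zero hD0.ne' hW) (Int.natAbs_ne_zero.2 hlc)
  obtain ⟨n, hn⟩ : ∃ n : ℕ, n = Nat.card Gal(P.SplittingField/ℚ) := ⟨_, rfl⟩
  have hn0 : 0 < n := by
    rw [hn]
    exact Nat.card_pos
  obtain ⟨K, hK⟩ : ∃ K : ℕ, K = ∑ p ∈ E.divisors, xp P.SplittingField 1 p := ⟨_, rfl⟩
  obtain ⟨G, hGd⟩ : ∃ G : ℕ → Prop, G = fun p : ℕ => p % W = 1 % W ∧ ∃ r : ℤ, (p : ℤ) ∣ f.eval r :=
    ⟨_, rfl⟩
  -- the upper bound for one prime
  have hle : ∀ p : ℕ, xp P.SplittingField 1 p ≤ (if G p then n else 0) +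
      (if p ∣ E then xp P.SplittingField 1 p else 0) := by
    intro p
    by_cases h0 : xp P.SplittingField 1 p = 0
    · rw [h0]
      exact Nat.zero_le _
    by_cases hpE : p ∣ E
    · rw [if_pos hpE]
      exact Nat.le_add_left _ _
    obtain ⟨hp, φ, hφ⟩ := xp_ne_zero h0
    have hpD : ¬ p ∣ D := fun h => hpE (by rw [hE]; exact (h.mul_right _).mul_right _)
    have hpW : ¬ p ∣ W := fun h => hpE (by rw [hE]; exact (h.mul_left _).mul_right _)
    have hpa : ¬ (p : ℤ) ∣ f.leadingCoeff := fun h =>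
      hpE (by rw [hE]; exact (Int.natCast_dvd.1 h).mul_left _)
    rw [if_neg hpE, add_zero, if_pos]
    · rw [hn, ← (hD p hpD).1]
      unfold xp
      rw [dif_pos hp.out]
      have hfin : Finite (𝓞 P.SplittingField →+* AlgebraicClosure (ZMod p)) := by
        refine Nat.finite_of_card_ne_zero ?_
        rw [(hD p hpD).1]
        exact Nat.card_pos.ne'
      exact Nat.card_le_card_of_injective _ Subtype.val_injective
    · rw [hGd]
      exact ⟨mod_one (Nat.pos_of_ne_zero hW) hζ hpW φ hφ, has_root hθ hpa φ hφ⟩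
  -- the sum
  have hsum : ∀ N : ℕ, ∑ p ∈ Pool.Agent.W401.Cheb.pr N, xp P.SplittingField 1 p ≤
      n * ((Pool.Agent.W401.Cheb.pr N).filter G).card + K := by
    intro N
    calc ∑ p ∈ Pool.Agent.W401.Cheb.pr N, xp P.SplittingField 1 p ≤
        ∑ p ∈ Pool.Agent.W401.Cheb.pr N, ((if G p then n else 0) +
          (if p ∣ E then xp P.SplittingField 1 p else 0)) := sum_le_sum fun p _ => hle p
      _ = ∑ p ∈ (Pool.Agent.W401.Cheb.pr N).filter G, n +
          ∑ p ∈ (Pool.Agent.W401.Cheb.pr N).filter (fun p => p ∣ E),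
            xp P.SplittingField 1 p := by
            rw [sum_add_distrib, sum_filter, sum_filter]
      _ ≤ _ := by
            rw [sum_const, smul_eq_mul, mul_comm]
            refine Nat.add_le_add_left ?_ _
            rw [hK]
            refine sum_le_sum_of_subset fun p hp => ?_
            rw [Nat.mem_divisors]
            exact ⟨(mem_filter.1 hp).2, hE0⟩
  have hlim := hC P.SplittingField 1
  have h3 : ∀ᶠ N : ℕ in Filter.atTop, (1 / 2 : ℝ) <
      (∑ p ∈ Pool.Agent.W401.Cheb.pr N, (xp P.SplittingField 1 p : ℝ)) / (Nat.primeCounting N : ℝ) :=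
    hlim.eventually (lt_mem_nhds (by norm_num))
  have h4 : ∀ᶠ N : ℕ in Filter.atTop, 4 * K ≤ Nat.primeCounting N :=
    Nat.tendsto_primeCounting.eventually_ge_atTop _
  obtain ⟨N0, hN0⟩ := Filter.eventually_atTop.1 (h3.and h4)
  obtain ⟨Y1, hY1, hpi⟩ := pi_lower
  refine ⟨1 / (8 * n), max Y1 (N0 + 1), by positivity, fun Y hY => ?_⟩
  have hYY1 : Y1 ≤ Y := (le_max_left _ _).trans hY
  have hY3 : 3 ≤ Y := hY1.trans hYY1
  have hlog : 0 < Real.log Y := Real.log_pos (by linarith)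
  have hYN : N0 ≤ ⌊Y⌋₊ := Nat.le_floor (by
    have := (le_max_right _ _).trans hY
    linarith)
  obtain ⟨h5, h6⟩ := hN0 ⌊Y⌋₊ hYN
  have h7 := hpi Y hYY1
  have hpos : (0 : ℝ) < (Nat.primeCounting ⌊Y⌋₊ : ℝ) := by
    refine lt_of_lt_of_le ?_ h7
    positivity
  rw [lt_div_iff₀ hpos] at h5
  have h8 : (∑ p ∈ Pool.Agent.W401.Cheb.pr ⌊Y⌋₊, (xp P.SplittingField 1 p : ℝ)) ≤
      n * (((Pool.Agent.W401.Cheb.pr ⌊Y⌋₊).filter G).card : ℝ) + K := by
    exact_mod_cast hsum ⌊Y⌋₊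
  have h9 : (4 * K : ℝ) ≤ (Nat.primeCounting ⌊Y⌋₊ : ℝ) := by exact_mod_cast h6
  have h10 : (((Pool.Agent.W401.Cheb.pr ⌊Y⌋₊).filter G).card : ℝ) ≤ (((pr Y).filter G).card : ℝ) := by
    norm_cast
    refine card_le_card fun p hp => ?_
    have h11 := mem_filter.1 hp
    have h12 := mem_filter.1 h11.1
    have h13 := mem_range.1 h12.1
    refine mem_filter.2 ⟨mem_filter.2 ⟨mem_Icc.2 ⟨h12.2.one_le, by omega⟩, h12.2⟩, h11.2⟩
  have hn0' : (0 : ℝ) < n := by exact_mod_cast hn0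
  have h11 : (Nat.primeCounting ⌊Y⌋₊ : ℝ) / 4 ≤ n * (((pr Y).filter G).card : ℝ) := by
    nlinarith
  have h12 : 1 / (8 * (n : ℝ)) * Y / Real.log Y = (Y / (2 * Real.log Y)) / 4 / n := by
    field_simp
    ring
  have h13 : 1 / (8 * (n : ℝ)) * Y / Real.log Y ≤ (((pr Y).filter G).card : ℝ) := by
    rw [h12, div_le_iff₀ hn0']
    linarith
  rw [hGd] at h13
  convert h13 using 3
  ext p
  simp only [mem_filter]

end Pool.Agent.Q154.EL
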