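import Pool.Agent.Q154.EL.M2a
import Pool.Agent.W54.Cheb.Tor

/-!
# EL-M2: many primes split completely
-/

set_option autoImplicit false

namespace Pool.Agent.Q154.EL

open Pool.Agent.Q51.EL

theorem m2 (h : S_M1) (h' : S_RAM) : S_M2 := m2_of W54.ChTor.main h h'

end Pool.Agent.Q154.EL
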