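import Pool.Agent.Q154.EL.Spl

/-!
# EL-M2: many primes split completely
-/

set_option autoImplicit false

namespace Pool.Agent.Q154.EL

open NumberField IsDedekindDomain Finset
open Pool.Agent.Q51.EL
open Pool.Agent.W401.Cheb (TaskTor)

theorem m2_of (hTor : TaskTor) (h : S_M1) (h' : S_RAM) : S_M2 := by
  classical
  intro L _ _
  obtain ⟨M, _, _, _, ⟨i⟩⟩ := exists_gal L
  obtain ⟨D, hD0, hD⟩ := split hTor M i
  obtain ⟨C, hC⟩ := h M (1 / 2) (by norm_num)
  obtain ⟨-, hN⟩ := h' M
  obtain ⟨n, hn⟩ : ∃ n : ℝ, n = Module.finrank ℚ M := ⟨_, rfl⟩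
  have hn0 : 0 < n := by
    rw [hn]
    exact_mod_cast Module.finrank_pos
  refine ⟨1 / (2 * n), (C + n * D) / n, by positivity, fun Y hY => ?_⟩
  have h1 := hC Y hY
  -- the primes dividing `D`
  have h2 : ∑ l ∈ pr Y, (N1 M l : ℝ) / l ≤
      ∑ l ∈ (pr Y).filter (fun l => N1 L l = Module.finrank ℚ L), n * ((1 : ℝ) / l) + n * D := by
    have h3 : ∀ l ∈ pr Y, (N1 M l : ℝ) / l ≤
        (if N1 L l = Module.finrank ℚ L then n * ((1 : ℝ) / l) else 0) +
          (if l ∣ D then n else 0) := by
      intro l hl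
      have hlp : l.Prime := (mem_filter.1 hl).2
      have hl1 : (1 : ℝ) ≤ l := by exact_mod_cast hlp.one_le
      have h4 : (N1 M l : ℝ) ≤ n := by
        rw [hn]
        exact_mod_cast hN l hlp
      have h5 : (N1 M l : ℝ) / l ≤ n * ((1 : ℝ) / l) := by
        rw [mul_one_div]
        gcongr
      have h6 : n * ((1 : ℝ) / l) ≤ n := by
        rw [mul_one_div]
        exact div_le_self hn0.le hl1
      have h7 : 0 ≤ n * ((1 : ℝ) / l) := by positivity
      by_cases h8 : l ∣ D
      · rw [if_pos h8]
        split_ifs <;> linarith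
      · rw [if_neg h8, add_zero]
        by_cases h9 : N1 M l = 0
        · rw [h9, Nat.cast_zero, zero_div]
          split_ifs
          · exact h7
          · exact le_rfl
        · rw [if_pos]
          · exact h5
          · refine hD l hlp h8 ?_
            rw [N1_eq hlp] at h9
            exact (Nat.card_ne_zero.1 h9).1
    calc ∑ l ∈ pr Y, (N1 M l : ℝ) / l ≤ ∑ l ∈ pr Y,
          ((if N1 L l = Module.finrank ℚ L then n * ((1 : ℝ) / l) else 0) +
            (if l ∣ D then n else 0)) := sum_le_sum h3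
      _ = ∑ l ∈ (pr Y).filter (fun l => N1 L l = Module.finrank ℚ L), n * ((1 : ℝ) / l) +
          ∑ l ∈ (pr Y).filter (fun l => l ∣ D), n := by
            rw [sum_add_distrib, sum_filter, sum_filter]
      _ ≤ _ := by
            gcongr
            rw [sum_const, nsmul_eq_mul, mul_comm]
            gcongr
            have h4 : (pr Y).filter (fun l => l ∣ D) ⊆ Nat.divisors D := by
              intro l hl
              rw [Nat.mem_divisors]
              exact ⟨(mem_filter.1 hl).2, hD0.ne'⟩
            exact (card_le_card h4).trans (Nat.card_divisors_le_self D)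
  rw [← mul_sum] at h2
  have h3 : (1 - 1 / 2) * Real.log (Real.log Y) - C ≤
      n * ∑ l ∈ (pr Y).filter (fun l => N1 L l = Module.finrank ℚ L), ((1 : ℝ) / l) + n * D :=
    h1.trans h2
  have h4 : 1 / (2 * n) * Real.log (Real.log Y) - (C + n * D) / n =
      ((1 - 1 / 2) * Real.log (Real.log Y) - C - n * D) / n := by
    field_simp
    ring
  rw [h4, div_le_iff₀ hn0]
  linarith

end Pool.Agent.Q154.EL
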